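import Mathlib
import Pool.Agent.H70.APS.Targets

/-!
# Insulating cracks, scale invariant a priori bound: limits of the rescaled fields (row S_LMB)
-/

open MeasureTheory Set Filter Topology Metric
open scoped ENNReal NNReal ContDiff RealInnerProductSpace

namespace Pool.Agent.H37.APS

open Pool.Agent.H94.IC Pool.Agent.H94.AC Pool.Agent.H92.CK Pool.Agent.H65.AP Pool.Agent.H70.APS

theorem gr_cont {f : E → ℝ} (hf : ContDiff ℝ ∞ f) : Continuous (gr f) := by
  have h1 : Continuous (fderiv ℝ f) := hf.continuous_fderiv (by simp)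
  exact (InnerProductSpace.toDual ℝ E).symm.continuous.comp h1

theorem gr_zero_of_notMem {f : E → ℝ} {x : E} (hx : x ∉ tsupport f) : gr f x = 0 := by
  have h1 : fderiv ℝ f x = 0 := by
    by_contra hne
    exact hx (support_fderiv_subset ℝ (Function.mem_support.2 hne))
  simp [gr, gradient, h1]

theorem gr_cpt {f : E → ℝ} (hf : HasCompactSupport f) : HasCompactSupport (gr f) :=
  HasCompactSupport.intro hf (fun _ hx => gr_zero_of_notMem hx)

theorem curl_cont {B : E → E} (hB : ContDiff ℝ ∞ B) : Continuous (curl B) := by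
  have h1 : Continuous (fderiv ℝ B) := hB.continuous_fderiv (by simp)
  have h2 : ∀ i j : Fin 3, Continuous (fun x => (fderiv ℝ B x (ev i)) j) := by
    intro i j
    have h3 : Continuous (fun x => fderiv ℝ B x (ev i)) := h1.clm_apply continuous_const
    exact (EuclideanSpace.proj (𝕜 := ℝ) j).continuous.comp h3
  unfold curl
  refine (PiLp.continuous_toLp 2 _).comp (continuous_pi fun k => ?_)
  fin_cases k
  · exact (h2 1 2).sub (h2 2 1)
  · exact (h2 2 0).sub (h2 0 2)
  · exact (h2 0 1).sub (h2 1 0)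

theorem curl_zero_of_notMem {B : E → E} {x : E} (hx : x ∉ tsupport B) : curl B x = 0 := by
  have h1 : fderiv ℝ B x = 0 := by
    by_contra hne
    exact hx (support_fderiv_subset ℝ (Function.mem_support.2 hne))
  ext k
  fin_cases k <;> simp [curl, h1]

theorem curl_cpt {B : E → E} (hB : HasCompactSupport B) : HasCompactSupport (curl B) :=
  HasCompactSupport.intro hB (fun _ hx => curl_zero_of_notMem hx)

theorem memLp_cc {g : E → E} (hg : Continuous g) (hc : HasCompactSupport g) : MemLp g 2 volume :=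
  hg.memLp_of_hasCompactSupport hc

theorem kap_gr_zero {R : ℝ} {κ : E → ℝ} (h : Kap R κ) {y : E} (hy : 2 * R < ‖y‖) : gr κ y = 0 := by
  have h1 : κ =ᶠ[𝓝 y] fun _ => (1 : ℝ) := by
    have h2 : ∀ᶠ z in 𝓝 y, 2 * R < ‖z‖ := (isOpen_lt continuous_const continuous_norm).mem_nhds hy
    filter_upwards [h2] with z hz
    exact h.one z hz.le
  have h3 : fderiv ℝ κ y = 0 := by
    rw [h1.fderiv_eq]; simp
  simp [gr, gradient, h3]

theorem cz_smooth (a b : E) : ContDiff ℝ ∞ (cz a b) := by
  unfold cz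
  have h1 : ∀ c : E, ContDiff ℝ ∞ (fun y : E => ((⟪c, y⟫ : ℝ) : ℂ)) := by
    intro c
    have h2 : ContDiff ℝ ∞ (fun y : E => (⟪c, y⟫ : ℝ)) := contDiff_const.inner ℝ contDiff_id
    exact Complex.ofRealCLM.contDiff.comp h2
  exact (h1 a).add ((h1 b).mul contDiff_const)

theorem bk_smooth (a b : E) (c : ℂ) (k : ℕ) : ContDiff ℝ ∞ (bk a b c k) := by
  unfold bk
  have h1 : ContDiff ℝ ∞ (fun y => c * cz a b y ^ k) := contDiff_const.mul ((cz_smooth a b).pow k)
  exact Complex.reCLM.contDiff.comp h1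

theorem MF_cont {κ q : E → ℝ} (hκ : ContDiff ℝ ∞ κ) (hq : ContDiff ℝ ∞ q) (w : E) : Continuous (MF κ q w) := by
  have h1 := gr_cont hκ
  have h2 := gr_cont hq
  unfold MF
  exact (((Continuous.inner (𝕜 := ℝ) h1 continuous_const).smul h2).sub
    ((Continuous.inner (𝕜 := ℝ) h1 h2).smul continuous_const)).sub
    ((Continuous.inner (𝕜 := ℝ) h2 continuous_const).smul h1)

theorem MF_cpt {κ q : E → ℝ} {R : ℝ} (hκ : Kap R κ) (w : E) : HasCompactSupport (MF κ q w) := by
  refine HasCompactSupport.intro (isCompact_closedBall (0 : E) (2 * R)) (fun y hy => ?_)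
  have h1 : 2 * R < ‖y‖ := by simpa using hy
  simp [MF, kap_gr_zero hκ h1]

theorem tr_ball (f : E → E) (y : E) (δ : ℝ) : ∫ z in ball y δ, f z = ∫ z in ball (0 : E) δ, f (y + z) := by
  have h := (measurePreserving_add_left (volume : Measure E) y).setIntegral_preimage_emb
    (measurableEmbedding_addLeft y) f (ball y δ)
  rw [← h]
  have h2 : (fun x => y + x) ⁻¹' ball y δ = ball (0 : E) δ := by
    ext z; simp [mem_ball, dist_eq_norm]
  rw [h2]

theorem ball_int_cont {f : E → E} (hf : Continuous f) (hc : HasCompactSupport f) (δ : ℝ) :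
    Continuous (fun y : E => ∫ z in ball y δ, f z) := by
  have h0 : (fun y : E => ∫ z in ball y δ, f z) = fun y => ∫ z in ball (0 : E) δ, f (y + z) := by
    funext y; exact tr_ball f y δ
  rw [h0]
  obtain ⟨C, hC⟩ := hf.bounded_above_of_compact_support hc
  refine continuous_of_dominated (bound := fun _ => C) (fun y => ?_) (fun y => ?_) ?_ ?_
  · exact (hf.comp (continuous_const.add continuous_id)).aestronglyMeasurable
  · exact Eventually.of_forall fun z => hC _
  · exact integrableOn_const (by exact measure_ball_lt_top.ne)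
  · exact Eventually.of_forall fun z => hf.comp (continuous_id.add continuous_const)

theorem pf_LMB (hWKU : Pool.Agent.H65.AP.T_WKU) : T_LMB := by
  intro U D L κ R δ K y v Q y0 v0 W hκ hR hδ hD hL hK hv hBl hy hv0 hW
  have hvol : ∀ z : E, (volume (ball z δ)).toReal = (volume (ball (0 : E) δ)).toReal := by
    intro z; rw [EuclideanSpace.volume_ball, EuclideanSpace.volume_ball]
  obtain ⟨Q0, hQ0, hlim⟩ := hWKU univ Q (volume (ball (0 : E) δ)).toReal U MeasurableSet.univ
    (fun n => by rw [Measure.restrict_univ]; exact (hBl n).mem)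
    (fun n => by
      rw [Measure.restrict_univ]
      have h := (hBl n).norm
      rw [hv n, hvol (y n)] at h
      simpa using h)
  rw [Measure.restrict_univ] at hQ0 hlim
  refine ⟨Q0, ⟨hQ0, ?_, ?_, ?_⟩⟩
  · intro φ hφ hc
    have h1 := hlim (gr φ) (memLp_cc (gr_cont hφ) (gr_cpt hc))
    have h2 : ∀ (z u : E), ∫ x in ball z δ, ⟪u, gr φ x⟫ = ⟪u, ∫ x in ball z δ, gr φ x⟫ := by
      intro z u
      exact integral_inner (((gr_cont hφ).integrable_of_hasCompactSupport (gr_cpt hc)).integrableOn) u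
    have h3 : Tendsto (fun n => ∫ x in ball (y n) δ, ⟪v n, gr φ x⟫) U (𝓝 (∫ x in ball y0 δ, ⟪v0, gr φ x⟫)) := by
      rw [h2]
      simp_rw [h2]
      exact hv0.inner (((ball_int_cont (gr_cont hφ) (gr_cpt hc) δ).tendsto y0).comp hy)
    have h4 : Tendsto (fun n => ∫ x, ⟪Q n x, gr φ x⟫) U (𝓝 (∫ x in ball y0 δ, ⟪v0, gr φ x⟫)) := by
      refine h3.congr fun n => ?_
      exact ((hBl n).div φ hφ hc).symm
    exact tendsto_nhds_unique h1 h4
  · intro B hB hc hs
    have h1 := hlim (curl B) (memLp_cc (curl_cont hB) (curl_cpt hc))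
    have h2 : ∀ᶠ n in (U : Filter ℕ), tsupport B ⊆ ball 0 (L n) := by
      obtain ⟨r, hr⟩ := hc.isBounded.subset_ball (0 : E)
      filter_upwards [hL.eventually_ge_atTop r] with n hn
      exact hr.trans (ball_subset_ball hn)
    have h3 : ∀ᶠ n in (U : Filter ℕ), ∫ x, ⟪Q n x, curl B x⟫ = 0 := by
      filter_upwards [h2, hW] with n hn hWn
      refine (hBl n).crl B hB hc fun x hx => ⟨hn hx, fun hxK => ?_⟩
      rcases hs hx with h | h
      · exact Set.disjoint_left.1 hWn h hxK
      · exact h (hK n hxK)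
    have h4 : Tendsto (fun n => ∫ x, ⟪Q n x, curl B x⟫) U (𝓝 0) :=
      tendsto_const_nhds.congr' (by filter_upwards [h3] with n hn; exact hn.symm)
    exact tendsto_nhds_unique h1 h4
  · intro a b c k w hab
    have h1 := hlim (MF κ (bk a b c k) w) (memLp_cc (MF_cont hκ.sm (bk_smooth a b c k) w) (MF_cpt hκ w))
    have h3 : ∀ᶠ n in (U : Filter ℕ), ∫ x, ⟪Q n x, MF κ (bk a b c k) w x⟫ = 0 := by
      filter_upwards [hD.eventually_ge_atTop k] with n hn
      exact (hBl n).mom a b c k w hab hn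
    have h4 : Tendsto (fun n => ∫ x, ⟪Q n x, MF κ (bk a b c k) w x⟫) U (𝓝 0) :=
      tendsto_const_nhds.congr' (by filter_upwards [h3] with n hn; exact hn.symm)
    exact tendsto_nhds_unique h1 h4

end Pool.Agent.H37.APS
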