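import Mathlib
import Pool.Agent.H70.APS.Targets
import Pool.Agent.H37.APS.LMB

/-!
# Insulating cracks, scale invariant a priori bound: rank three far from a small crack (row S_FAR)
-/

open MeasureTheory Set Filter Topology Metric
open scoped ENNReal NNReal ContDiff RealInnerProductSpace

namespace Pool.Agent.H37.APS

open Pool.Agent.H94.IC Pool.Agent.H94.AC Pool.Agent.H92.CK Pool.Agent.H65.AP Pool.Agent.H70.APS

theorem int_inner {μ : Measure E} {F G : E → E} (hF : MemLp F 2 μ) (hG : MemLp G 2 μ) :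
    Integrable (fun x => ⟪F x, G x⟫) μ := by
  refine (L2.integrable_inner (𝕜 := ℝ) (hF.toLp F) (hG.toLp G)).congr ?_
  filter_upwards [hF.coeFn_toLp, hG.coeFn_toLp] with x h1 h2
  rw [h1, h2]

theorem int_sq {μ : Measure E} {F : E → E} (hF : MemLp F 2 μ) : Integrable (fun x => ‖F x‖ ^ 2) μ := by
  have h := int_inner hF hF
  refine h.congr (Eventually.of_forall fun x => ?_)
  exact real_inner_self_eq_norm_sq (F x)

theorem curl_congr {A A' : E → E} {x x' : E} (h : fderiv ℝ A x = fderiv ℝ A' x') : curl A x = curl A' x' := by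
  simp [curl, h]

theorem curl_eventually {A A' : E → E} {x : E} (h : A =ᶠ[𝓝 x] A') : curl A x = curl A' x :=
  curl_congr h.fderiv_eq

theorem curl_scale {G : E → E} (hG : ContDiff ℝ ∞ G) (a : E) {ε : ℝ} (hε : 0 < ε) (z : E) :
    curl (fun z => ε • G (ε⁻¹ • (z - a))) z = curl G (ε⁻¹ • (z - a)) := by
  apply curl_congr
  have h1 : HasFDerivAt G (fderiv ℝ G (ε⁻¹ • (z - a))) (ε⁻¹ • (z - a)) :=
    (hG.differentiable (by simp) _).hasFDerivAt
  have h2 : HasFDerivAt (fun z : E => ε⁻¹ • (z - a)) (ε⁻¹ • ContinuousLinearMap.id ℝ E) z :=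
    ((hasFDerivAt_id z).sub_const a).const_smul ε⁻¹
  have h3 := (h1.comp z h2).const_smul ε
  have h4 := h3.fderiv
  have h5 : fderiv ℝ (fun z => ε • G (ε⁻¹ • (z - a))) z
      = ε • (fderiv ℝ G (ε⁻¹ • (z - a))).comp (ε⁻¹ • ContinuousLinearMap.id ℝ E) := h4
  rw [h5]
  ext1 w
  simp [smul_smul, hε.ne']

/-- the model field -/
theorem model (hCRL : Pool.Agent.H65.AP.T_CRL) {κ : E → ℝ} (hκ : Kap 2 κ) (k : Fin 3) :
    ∃ (G : E → E) (C : ℝ), ContDiff ℝ ∞ G ∧ 0 ≤ C ∧ (∀ y, ‖y‖ ≤ 2 → G y = 0) ∧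
      (∀ y, 4 < ‖y‖ → curl G y = ev k) ∧ ∀ y, ‖curl G y - ev k‖ ≤ C := by
  obtain ⟨B, hB, hBc⟩ := hCRL.2.2.2 (ev k)
  have hG : ContDiff ℝ ∞ (fun y => κ y • B y) := hκ.sm.smul hB
  have h1 : ∀ y, 4 < ‖y‖ → curl (fun y => κ y • B y) y = ev k := by
    intro y hy
    rw [← hBc y]
    apply curl_eventually
    have h2 : ∀ᶠ z in 𝓝 y, 4 < ‖z‖ := (isOpen_lt continuous_const continuous_norm).mem_nhds hy
    filter_upwards [h2] with z hz
    rw [hκ.one z (by linarith), one_smul]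
  have h3 : Continuous (fun y => curl (fun y => κ y • B y) y - ev k) := (curl_cont hG).sub continuous_const
  have h4 : HasCompactSupport (fun y => curl (fun y => κ y • B y) y - ev k) := by
    refine HasCompactSupport.intro (isCompact_closedBall (0 : E) 4) (fun y hy => ?_)
    rw [h1 y (by simpa using hy), sub_self]
  obtain ⟨C, hC⟩ := h3.bounded_above_of_compact_support h4
  refine ⟨fun y => κ y • B y, C, hG, le_trans (norm_nonneg _) (hC 0), ?_, h1, hC⟩
  intro y hy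
  show κ y • B y = 0
  rw [hκ.zero y hy, zero_smul]

/-- minus the coordinate -/
noncomputable def mc (k : Fin 3) (x : E) : ℝ := -(x k)

theorem mc_smooth (k : Fin 3) : ContDiff ℝ ∞ (mc k) := by
  unfold mc
  exact (EuclideanSpace.proj (𝕜 := ℝ) (ι := Fin 3) k).contDiff.neg

theorem mc_fderiv (k : Fin 3) (x : E) : fderiv ℝ (mc k) x = -(EuclideanSpace.proj (𝕜 := ℝ) (ι := Fin 3) k) := by
  have h : HasFDerivAt (mc k) (-(EuclideanSpace.proj (𝕜 := ℝ) (ι := Fin 3) k)) x :=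
    (EuclideanSpace.proj (𝕜 := ℝ) (ι := Fin 3) k).hasFDerivAt.neg
  exact h.fderiv

theorem mc_gr (k : Fin 3) (x : E) : gr (mc k) x = -ev k := by
  have h : fderiv ℝ (mc k) x = InnerProductSpace.toDual ℝ E (-ev k) := by
    rw [mc_fderiv]
    ext1 w
    rw [InnerProductSpace.toDual_apply_apply, inner_neg_left, EuclideanSpace.inner_single_left]
    simp
  show (InnerProductSpace.toDual ℝ E).symm (fderiv ℝ (mc k) x) = -ev k
  rw [h]; simp

theorem mc_pd (k j : Fin 3) (x : E) : pd j (mc k) x = -(ev j : E) k := by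
  unfold pd
  rw [mc_fderiv]
  simp

theorem gr_add_mc {h : E → ℝ} {x : E} (k : Fin 3) (hh : DifferentiableAt ℝ h x) :
    gr (fun y => h y + mc k y) x = gr h x + gr (mc k) x := by
  have h1 : fderiv ℝ (fun y => h y + mc k y) x = fderiv ℝ h x + fderiv ℝ (mc k) x :=
    fderiv_fun_add hh ((mc_smooth k).differentiable (by simp) x)
  show (InnerProductSpace.toDual ℝ E).symm (fderiv ℝ (fun y => h y + mc k y) x) = _
  rw [h1, map_add]
  rfl

theorem harm_add_mc {O : Set E} (hO : IsOpen O) {h : E → ℝ} (hh : Harm O h) (k : Fin 3) :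
    Harm O (fun y => h y + mc k y) := by
  refine ⟨hh.1.add (mc_smooth k).contDiffOn, fun x hx => ?_⟩
  have hd : ∀ y ∈ O, DifferentiableAt ℝ h y := fun y hy =>
    (hh.1.differentiableOn (by simp) y hy).differentiableAt (hO.mem_nhds hy)
  have h1 : ∀ j : Fin 3, pd j (pd j fun y => h y + mc k y) x = pd j (pd j h) x := by
    intro j
    have h2 : (pd j fun y => h y + mc k y) =ᶠ[𝓝 x] fun y => pd j h y + (-(ev j : E) k) := by
      filter_upwards [hO.mem_nhds hx] with y hy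
      have h3 : fderiv ℝ (fun y => h y + mc k y) y = fderiv ℝ h y + fderiv ℝ (mc k) y :=
        fderiv_fun_add (hd y hy) ((mc_smooth k).differentiable (by simp) y)
      show fderiv ℝ (fun y => h y + mc k y) y (ev j) = _
      rw [h3, add_apply]
      have h4 := mc_pd k j y
      unfold pd at h4 ⊢
      rw [h4]
    show fderiv ℝ (pd j fun y => h y + mc k y) x (ev j) = fderiv ℝ (pd j h) x (ev j)
    rw [h2.fderiv_eq, fderiv_add_const]
  simp_rw [h1]
  exact hh.2 x hx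

theorem far_k (hHSM : T_HSM) (hMVG : T_MVG) (hCRL : Pool.Agent.H65.AP.T_CRL) {κ : E → ℝ} (hκ : Kap 2 κ) (k : Fin 3) :
    ∃ C2 : ℝ, 0 ≤ C2 ∧ ∀ (Ω S : Set E) (σ : Measure E) (ν : E → E) (a x : E) (ε M : ℝ) (h τ : E → ℝ), Dom Ω →
      IsSurf Ω σ ν → IsCompact S → S ⊆ closedBall a ε → 0 < ε → closedBall a (4 * ε) ⊆ Ω → ball x (M * ε) ⊆ Ω \ S →
      0 < M → Harm (Ω \ S) h → Sol Ω S σ ν (fun y => ν y k) h (gr h) τ → M ^ 3 * ‖gr h x - ev k‖ ^ 2 ≤ C2 := by
  obtain ⟨G, C1, hG, hC1, hG0, hG1, hGC⟩ := model hCRL hκ k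
  set V : ℝ := (volume : Measure E).real (ball 0 1) with hV
  have hV0 : 0 ≤ V := measureReal_nonneg
  refine ⟨C1 ^ 2 * (64 * V), by positivity, ?_⟩
  intro Ω S σ ν a x ε M h τ hΩ hσ hS hSa hε haΩ hx hM hh hsol
  have := hσ.fin
  have hO : IsOpen (Ω \ S) := hΩ.op.sdiff hS.isClosed
  have hSΩ : S ⊆ Ω := hSa.trans ((closedBall_subset_closedBall (by linarith)).trans haΩ)
  have hfin : IsFiniteMeasure (volume.restrict Ω) := ⟨by
    rw [Measure.restrict_apply_univ]; exact hΩ.bdd.measure_lt_top⟩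
  obtain ⟨r, hr0, hr⟩ := hΩ.bdd.closure.subset_ball_lt 0 (0 : E)
  let χ : ContDiffBump (0 : E) := ⟨r, r + 1, hr0, by linarith⟩
  -- the field
  let Y : E → E := fun z => χ z • (ε • G (ε⁻¹ • (z - a)))
  have hGs : ContDiff ℝ ∞ (fun z : E => ε • G (ε⁻¹ • (z - a))) :=
    (hG.comp ((contDiff_id.sub contDiff_const).const_smul ε⁻¹)).const_smul ε
  have hY : ContDiff ℝ ∞ Y := (ContDiffBump.contDiff χ).smul hGs
  have hYc : HasCompactSupport Y := χ.hasCompactSupport.smul_right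
  obtain ⟨hX, hXs, hXd⟩ := hCRL.1 Y hY
  have hXc : HasCompactSupport (curl Y) := curl_cpt hYc
  have hXΩ : ∀ z ∈ closure Ω, curl Y z = curl G (ε⁻¹ • (z - a)) := by
    intro z hz
    rw [← curl_scale hG a hε z]
    apply curl_eventually
    have h1 := χ.eventuallyEq_one_of_mem_ball (x := z) (hr hz)
    filter_upwards [h1] with y hy
    show χ y • (ε • G (ε⁻¹ • (y - a))) = _
    rw [hy]; simp
  have hnorm : ∀ z : E, ‖ε⁻¹ • (z - a)‖ = ε⁻¹ * ‖z - a‖ := by
    intro z; rw [norm_smul, Real.norm_of_nonneg (inv_nonneg.2 hε.le)]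
  have hfar : ∀ z ∈ closure Ω, 4 * ε < ‖z - a‖ → curl Y z = ev k := by
    intro z hz hza
    rw [hXΩ z hz]
    apply hG1
    rw [hnorm, inv_mul_eq_div, lt_div_iff₀ hε]
    exact hza
  have hdisj : Disjoint (tsupport (curl Y)) S := by
    have h1 : tsupport Y ⊆ {z | 2 * ε ≤ ‖z - a‖} := by
      apply closure_minimal _ (isClosed_le continuous_const (continuous_id.sub continuous_const).norm)
      intro z hz
      by_contra hlt
      have hlt' : ‖z - a‖ < 2 * ε := not_le.1 hlt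
      apply hz
      show χ z • (ε • G (ε⁻¹ • (z - a))) = 0
      rw [hG0 _ (by rw [hnorm, inv_mul_eq_div, div_le_iff₀ hε]; exact hlt'.le)]
      simp
    rw [Set.disjoint_left]
    intro z hz hzS
    have h2 : 2 * ε ≤ ‖z - a‖ := h1 (hXs hz)
    have h3 : ‖z - a‖ ≤ ε := by simpa [dist_eq_norm] using hSa hzS
    linarith
  -- the function
  obtain ⟨hs1, hs2, hs3, hs4, hs5⟩ := hHSM Ω S σ ν hΩ.op hΩ.bdd hσ hS hSΩ
  have hu := hs1 _ _ _ _ _ _ hsol.h (hs4 (mc k) (mc_smooth k))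
  have hw := hsol.weak _ _ _ hu
  have ht := hu.tr (curl Y) hX hXc hdisj
  have hF2 : MemLp (gr h) 2 (volume.restrict Ω) := hsol.h.F2
  have hG2 : MemLp (fun x => gr h x + gr (mc k) x) 2 (volume.restrict Ω) := hu.F2
  have hX2 : MemLp (curl Y) 2 (volume.restrict Ω) := (memLp_cc hX.continuous hXc).restrict Ω
  have ht' : ∫ x in Ω, ⟪gr h x + gr (mc k) x, curl Y x⟫ = ∫ x, ν x k * (τ x + mc k x) ∂σ := by
    have h1 : ∫ x in Ω, ((h x + mc k x) * dv (curl Y) x + ⟪gr h x + gr (mc k) x, curl Y x⟫)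
        = ∫ x in Ω, ⟪gr h x + gr (mc k) x, curl Y x⟫ := by
      congr 1; funext y; rw [hXd y]; ring
    rw [← h1, ht]
    apply integral_congr_ae
    have h2 : ∀ᵐ y ∂σ, y ∈ frontier Ω := by
      rw [ae_iff]; exact hσ.supp
    filter_upwards [h2] with y hy
    have h3 : y ∉ Ω := by
      intro hyΩ
      have := hy.2
      rw [hΩ.op.interior_eq] at this
      exact this hyΩ
    have h4 : 4 * ε < ‖y - a‖ := by
      by_contra hle
      apply h3
      apply haΩ
      simpa [dist_eq_norm] using not_lt.1 hle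
    rw [hfar y hy.1 h4, EuclideanSpace.inner_single_left]
    simp
    ring
  have hzero : ∫ x in Ω, ⟪gr h x - curl Y x, gr h x + gr (mc k) x⟫ = 0 := by
    have h1 : ∫ x in Ω, ⟪gr h x - curl Y x, gr h x + gr (mc k) x⟫
        = (∫ x in Ω, ⟪gr h x, gr h x + gr (mc k) x⟫) - ∫ x in Ω, ⟪curl Y x, gr h x + gr (mc k) x⟫ := by
      rw [← integral_sub (int_inner hF2 hG2) (int_inner hX2 hG2)]
      congr 1; funext y; rw [inner_sub_left]
    rw [h1, hw, ← ht']
    have h2 : ∫ x in Ω, ⟪curl Y x, gr h x + gr (mc k) x⟫ = ∫ x in Ω, ⟪gr h x + gr (mc k) x, curl Y x⟫ := by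
      congr 1; funext y; rw [real_inner_comm]
    rw [h2, sub_self]
  have hW2 : MemLp (fun x => curl Y x - ev k) 2 (volume.restrict Ω) := hX2.sub (memLp_const _)
  have hen : ∫ x in Ω, ‖gr h x + gr (mc k) x‖ ^ 2 ≤ ∫ x in Ω, ‖curl Y x - ev k‖ ^ 2 := by
    have h1 : ∫ x in Ω, (‖gr h x + gr (mc k) x‖ ^ 2) ≤ ∫ x in Ω, (2 * ⟪gr h x - curl Y x, gr h x + gr (mc k) x⟫ +
        ‖curl Y x - ev k‖ ^ 2) := by
      apply integral_mono (int_sq hG2)
      · exact ((int_inner (hF2.sub hX2) hG2).const_mul 2).add (int_sq hW2)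
      · intro y
        show ‖gr h y + gr (mc k) y‖ ^ 2 ≤ 2 * ⟪gr h y - curl Y y, gr h y + gr (mc k) y⟫ + ‖curl Y y - ev k‖ ^ 2
        have h2 : gr h y - curl Y y = (gr h y + gr (mc k) y) - (curl Y y - ev k) := by rw [mc_gr]; abel
        rw [h2, inner_sub_left, real_inner_self_eq_norm_sq]
        have h3 := real_inner_le_norm (curl Y y - ev k) (gr h y + gr (mc k) y)
        nlinarith [sq_nonneg (‖curl Y y - ev k‖ - ‖gr h y + gr (mc k) y‖)]
    have h4 : ∫ x in Ω, (2 * ⟪gr h x - curl Y x, gr h x + gr (mc k) x⟫ + ‖curl Y x - ev k‖ ^ 2)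
        = ∫ x in Ω, ‖curl Y x - ev k‖ ^ 2 := by
      have h5 := integral_add ((int_inner (hF2.sub hX2) hG2).const_mul 2) (int_sq hW2)
      simp only [Pi.sub_apply] at h5
      rw [h5, integral_const_mul, hzero]; ring
    exact h1.trans h4.le
  have hWb : ∫ x in Ω, ‖curl Y x - ev k‖ ^ 2 ≤ C1 ^ 2 * (64 * V) * ε ^ 3 := by
    rw [setIntegral_eq_of_subset_of_forall_sdiff_eq_zero hΩ.op.measurableSet haΩ]
    · have h1 := norm_setIntegral_le_of_norm_le_const (μ := (volume : Measure E)) (s := closedBall a (4 * ε))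
        (f := fun x => ‖curl Y x - ev k‖ ^ 2) (C := C1 ^ 2) measure_closedBall_lt_top (fun z hz => by
          rw [Real.norm_of_nonneg (by positivity), hXΩ z (subset_closure (haΩ hz))]
          exact pow_le_pow_left₀ (norm_nonneg _) (hGC _) 2)
      rw [Measure.addHaar_real_closedBall _ _ (by positivity)] at h1
      refine (le_abs_self _).trans (h1.trans (le_of_eq ?_))
      rw [← hV]
      simp
      ring
    · intro z hz
      have h1 : 4 * ε < ‖z - a‖ := by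
        have := hz.2
        simpa [dist_eq_norm] using this
      rw [hfar z (subset_closure hz.1) h1]
      simp
  -- mean value
  have hgu : ∀ y ∈ Ω \ S, gr (fun y => h y + mc k y) y = gr h y + gr (mc k) y := by
    intro y hy
    exact gr_add_mc k ((hh.1.differentiableOn (by simp) y hy).differentiableAt (hO.mem_nhds hy))
  have hMε : 0 < M * ε := by positivity
  have hxO : x ∈ Ω \ S := hx (mem_ball_self hMε)
  have hint : IntegrableOn (fun y => ‖gr h y + gr (mc k) y‖ ^ 2) (ball x (M * ε)) :=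
    (show IntegrableOn (fun y => ‖gr h y + gr (mc k) y‖ ^ 2) Ω from int_sq hG2).mono_set
      (hx.trans sdiff_subset)
  have hmv := hMVG (Ω \ S) (fun y => h y + mc k y) x (M * ε) (harm_add_mc hO hh k) hMε hx
    (hint.congr_fun (fun y hy => by show _ = ‖gr _ y‖ ^ 2; rw [hgu y (hx hy)]) measurableSet_ball)
  have h6 : ∫ y in ball x (M * ε), ‖gr (fun y => h y + mc k y) y‖ ^ 2
      = ∫ y in ball x (M * ε), ‖gr h y + gr (mc k) y‖ ^ 2 :=
    setIntegral_congr_fun measurableSet_ball (fun y hy => by show ‖gr _ y‖ ^ 2 = _; rw [hgu y (hx hy)])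
  have h7 : ∫ y in ball x (M * ε), ‖gr h y + gr (mc k) y‖ ^ 2 ≤ ∫ y in Ω, ‖gr h y + gr (mc k) y‖ ^ 2 :=
    setIntegral_mono_set (int_sq hG2) (Eventually.of_forall fun y => by positivity)
      (Eventually.of_forall fun y hy => (hx hy).1)
  rw [h6, hgu x hxO, mc_gr, ← sub_eq_add_neg] at hmv
  have h8 : ‖gr h x - ev k‖ ^ 2 ≤ (M * ε)⁻¹ ^ 3 * (C1 ^ 2 * (64 * V) * ε ^ 3) := by
    refine hmv.trans (mul_le_mul_of_nonneg_left (h7.trans (hen.trans hWb)) (by positivity))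
  calc M ^ 3 * ‖gr h x - ev k‖ ^ 2 ≤ M ^ 3 * ((M * ε)⁻¹ ^ 3 * (C1 ^ 2 * (64 * V) * ε ^ 3)) :=
        mul_le_mul_of_nonneg_left h8 (by positivity)
    _ = C1 ^ 2 * (64 * V) := by field_simp

theorem pf_FAR (hHSM : T_HSM) (hMVG : T_MVG) (hKAP : T_KAP) (hCRL : Pool.Agent.H65.AP.T_CRL) (_hMFI : T_MFI) :
    T_FAR := by
  obtain ⟨κ, hκ⟩ := hKAP 2 (by norm_num)
  choose C2 hC2 hfar using fun k : Fin 3 => far_k hHSM hMVG hCRL hκ k
  refine ⟨1 + 16 * ∑ k, C2 k, ?_, ?_⟩
  · have : 0 ≤ ∑ k, C2 k := Finset.sum_nonneg fun k _ => hC2 k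
    linarith
  intro Ω S σ ν a x v ε h τ hΩ hσ hS hSa hε haΩ _ hx hh hsol hv
  by_contra hcon
  push Not at hcon
  have hsum : 0 ≤ ∑ k, C2 k := Finset.sum_nonneg fun k _ => hC2 k
  set M : ℝ := 1 + 16 * ∑ k, C2 k with hM
  have hM1 : 1 ≤ M := by linarith
  have hk : ∀ k : Fin 3, (v k) ^ 2 ≤ 1 / 16 := by
    intro k
    have h1 := hfar k Ω S σ ν a x ε M (h k) (τ k) hΩ hσ hS hSa hε haΩ hx (by linarith) (hh k) (hsol k)
    have h2 : C2 k ≤ ∑ k, C2 k := Finset.single_le_sum (fun k _ => hC2 k) (Finset.mem_univ k)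
    have h3 : M ≤ M ^ 3 := by nlinarith [mul_self_nonneg (M - 1), mul_nonneg (sub_nonneg.2 hM1) (sub_nonneg.2 hM1)]
    have h4 : M * ‖gr (h k) x - ev k‖ ^ 2 ≤ C2 k := (mul_le_mul_of_nonneg_right h3 (by positivity)).trans h1
    have h5 : ‖gr (h k) x - ev k‖ ^ 2 ≤ 1 / 16 := by
      by_contra hlt
      have hlt' := not_le.1 hlt
      have : M * (1 / 16) < M * ‖gr (h k) x - ev k‖ ^ 2 := mul_lt_mul_of_pos_left hlt' (by linarith)
      have : M * (1 / 16) = 1 / 16 + ∑ k, C2 k := by rw [hM]; ring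
      linarith
    have h6 : v k = -⟪gr (h k) x - ev k, v⟫ := by
      rw [inner_sub_left, hcon k, EuclideanSpace.inner_single_left]
      simp
    have h7 := abs_real_inner_le_norm (gr (h k) x - ev k) v
    rw [hv, mul_one] at h7
    rw [h6, neg_sq, ← sq_abs]
    exact (pow_le_pow_left₀ (abs_nonneg _) h7 2).trans h5
  have hn : ∑ k : Fin 3, (v k) ^ 2 = 1 := by
    have := EuclideanSpace.norm_sq_eq v
    rw [hv] at this
    simpa using this.symm
  rw [Fin.sum_univ_three] at hn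
  linarith [hk 0, hk 1, hk 2]

end Pool.Agent.H37.APS
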